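import Pool.Agent.helper62.LL.SpecK

set_option autoImplicit false

namespace Pool.Agent.LL

open UpperHalfPlane MeasureTheory Filter Set
open scoped MatrixGroups ContDiff Topology UpperHalfPlane
open Pool.Agent.EN (XG MG mkX mkM fl pr)

theorem JL1_null {X : Type*} [MeasurableSpace X] (μ : Measure X) [IsProbabilityMeasure μ] (G : Set X)
    (B : ℝ → X → Set X) (r C C' s : ℝ) (hr : 0 < r) (hs : 2 < s)
    (hC : ∀ (q : X) (τ : ℝ), 0 < τ → τ ≤ r → μ.real (G ∩ B τ q) ≤ C * τ ^ s)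
    (hA : ∀ n : ℕ, ∃ A : Finset X, (A.card : ℝ) ≤ C' * Real.exp (2 * n) ∧ ∀ y : X, ∃ q ∈ A,
      y ∈ B (r * Real.exp (-n)) q) : μ G = 0 := by
  have hb : ∀ n : ℕ, μ.real G ≤ C' * |C| * r ^ s * Real.exp ((2 - s) * n) := by
    intro n
    obtain ⟨A, hA1, hA2⟩ := hA n
    have hτ : 0 < r * Real.exp (-n) := by positivity
    have hτr : r * Real.exp (-n) ≤ r := by
      have : Real.exp (-(n : ℝ)) ≤ 1 := Real.exp_le_one_iff.2 (by simp)
      nlinarith
    have hsub : G ⊆ ⋃ q ∈ A, (G ∩ B (r * Real.exp (-n)) q) := by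
      intro y hy
      obtain ⟨q, hq, hyq⟩ := hA2 y
      exact Set.mem_biUnion hq ⟨hy, hyq⟩
    calc μ.real G ≤ μ.real (⋃ q ∈ A, (G ∩ B (r * Real.exp (-n)) q)) := measureReal_mono hsub (measure_ne_top _ _)
      _ ≤ ∑ q ∈ A, μ.real (G ∩ B (r * Real.exp (-n)) q) := measureReal_biUnion_finset_le _ _
      _ ≤ ∑ q ∈ A, |C| * (r * Real.exp (-n)) ^ s := by
          refine Finset.sum_le_sum fun q _ => (hC q _ hτ hτr).trans ?_
          exact mul_le_mul_of_nonneg_right (le_abs_self C) (by positivity)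
      _ = A.card * (|C| * (r * Real.exp (-n)) ^ s) := by rw [Finset.sum_const, nsmul_eq_mul]
      _ ≤ (C' * Real.exp (2 * n)) * (|C| * (r * Real.exp (-n)) ^ s) :=
          mul_le_mul_of_nonneg_right hA1 (by positivity)
      _ = C' * |C| * r ^ s * Real.exp ((2 - s) * n) := by
          rw [Real.mul_rpow hr.le (Real.exp_pos _).le, ← Real.exp_mul]
          have h : Real.exp ((2 - s) * n) = Real.exp (2 * n) * Real.exp (-n * s) := by
            rw [← Real.exp_add]
            ring_nf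
          rw [h]
          ring
  have hlim : Tendsto (fun n : ℕ => C' * |C| * r ^ s * Real.exp ((2 - s) * n)) atTop (𝓝 0) := by
    have h1 : Tendsto (fun n : ℕ => (2 - s) * (n : ℝ)) atTop atBot :=
      tendsto_natCast_atTop_atTop.const_mul_atTop_of_neg (by linarith)
    have h2 := (Real.tendsto_exp_atBot.comp h1).const_mul (C' * |C| * r ^ s)
    rw [mul_zero] at h2
    exact h2
  have h0 : μ.real G ≤ 0 := ge_of_tendsto' hlim hb
  have h1 : μ.real G = 0 := le_antisymm h0 measureReal_nonneg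
  exact (measureReal_eq_zero_iff).1 h1

theorem JL1_proof (h1 : KAT_stmt) (h2 : CVB_stmt) : JL1_stmt := by
  intro Γ μ p P J ε a hΓ hμ hinv hP hJ hε ha hcyl
  by_contra hne
  have hpos : 0 < (μ {x | a < J x}).toReal :=
    ENNReal.toReal_pos hne (measure_ne_top _ _)
  obtain ⟨G, r, C, -, -, hG3, hr0, hr1, hG⟩ := h1 Γ μ p P J ε a ((μ {x | a < J x}).toReal / 2) hΓ hμ hinv hP hJ hε
    (by linarith) (by linarith) hcyl
  obtain ⟨C', -, hC'⟩ := h2 Γ r hΓ hr0 hr1
  have hnull : μ G = 0 :=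
    JL1_null μ G (fun τ q => Bx Γ r τ q) r C C' (2 * (a - 2 * ε)) hr0 (by linarith) hG hC'
  have h3 : μ {x | a < J x} ≤ μ G + μ ({x | a < J x} \ G) := by
    calc μ {x | a < J x} ≤ μ (G ∪ ({x | a < J x} \ G)) := measure_mono (by
          intro x hx
          by_cases hxG : x ∈ G
          · exact Or.inl hxG
          · exact Or.inr ⟨hx, hxG⟩)
      _ ≤ _ := measure_union_le _ _
  rw [hnull, zero_add] at h3
  have h4 := h3.trans hG3
  have h5 := ENNReal.toReal_mono ENNReal.ofReal_ne_top h4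
  rw [ENNReal.toReal_ofReal (by linarith)] at h5
  linarith

end Pool.Agent.LL
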